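import Pool.Agent.L7h11.DP.Stm

/-!
# Project DP (helper11): the limit of `B_1`
-/

set_option autoImplicit false

namespace Pool.Agent.L7h97.DP

open Finset Filter Topology MeasureTheory Pool.Agent.L7h11.DP

lemma ii_g (u a b : ℝ) : IntervalIntegrable (fun v : ℝ => (u - v) ^ (-(1 / 2) : ℝ)) volume a b := by
  have h : IntervalIntegrable (fun x : ℝ => x ^ (-(1 / 2) : ℝ)) volume (u - a) (u - b) :=
    intervalIntegral.intervalIntegrable_rpow' (by norm_num)
  have h2 := h.comp_sub_left u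
  simpa using h2

lemma int_g (u a : ℝ) : ∫ v in a..u, (u - v) ^ (-(1 / 2) : ℝ) = 2 * √(u - a) := by
  rw [intervalIntegral.integral_comp_sub_left (fun x : ℝ => x ^ (-(1 / 2) : ℝ)) u, sub_self,
    integral_rpow (Or.inl (by norm_num))]
  rw [Real.sqrt_eq_rpow, Real.zero_rpow (by norm_num)]
  norm_num
  ring

lemma ii_p (r a b : ℝ) (hr : -1 < r) : IntervalIntegrable (fun v : ℝ => v ^ r) volume a b :=
  intervalIntegral.intervalIntegrable_rpow' hr

/-- the Beta integral -/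
lemma beta_d (u : ℝ) (hu : 0 < u) (v : ℝ) (h0 : 0 < v) (h1 : v < u) :
    HasDerivAt (fun v : ℝ => Real.arcsin ((2 * v - u) / u))
      (v ^ (-(1 / 2) : ℝ) * (u - v) ^ (-(1 / 2) : ℝ)) v := by
  have h2 : (2 * v - u) / u ≠ -1 := by
    intro h
    rw [div_eq_iff hu.ne'] at h
    linarith
  have h3 : (2 * v - u) / u ≠ 1 := by
    intro h
    rw [div_eq_iff hu.ne'] at h
    linarith
  have h4 : HasDerivAt (fun v : ℝ => (2 * v - u) / u) (2 / u) v := by
    have := (((hasDerivAt_id v).const_mul 2).sub_const u).div_const u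
    simpa using this
  have h5 := (Real.hasDerivAt_arcsin h2 h3).comp v h4
  refine h5.congr_deriv ?_
  have h6 : 1 - ((2 * v - u) / u) ^ 2 = (2 / u) ^ 2 * (v * (u - v)) := by
    field_simp
    ring
  have h7 : 0 < v * (u - v) := mul_pos h0 (by linarith)
  rw [h6, Real.sqrt_mul (by positivity), Real.sqrt_sq (by positivity),
    ← Real.mul_rpow h0.le (by linarith), Real.rpow_neg h7.le, ← Real.sqrt_eq_rpow]
  field_simp

lemma beta_ii (u : ℝ) (hu : 0 < u) :
    IntervalIntegrable (fun v : ℝ => v ^ (-(1 / 2) : ℝ) * (u - v) ^ (-(1 / 2) : ℝ)) volume 0 u := by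
  apply intervalIntegral.intervalIntegrable_deriv_of_nonneg
    (g := fun v : ℝ => Real.arcsin ((2 * v - u) / u))
  · exact (Real.continuous_arcsin.comp (by fun_prop)).continuousOn
  · intro x hx
    rw [min_eq_left hu.le, max_eq_right hu.le] at hx
    exact beta_d u hu x hx.1 hx.2
  · intro x hx
    rw [min_eq_left hu.le, max_eq_right hu.le] at hx
    exact mul_nonneg (Real.rpow_nonneg hx.1.le _) (Real.rpow_nonneg (by linarith [hx.2]) _)

lemma beta_int (u : ℝ) (hu : 0 < u) :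
    ∫ v in (0 : ℝ)..u, v ^ (-(1 / 2) : ℝ) * (u - v) ^ (-(1 / 2) : ℝ) = Real.pi := by
  rw [intervalIntegral.integral_eq_sub_of_hasDerivAt_of_le hu.le
    (f := fun v : ℝ => Real.arcsin ((2 * v - u) / u))
    (Real.continuous_arcsin.comp (by fun_prop)).continuousOn
    (fun x hx => beta_d u hu x hx.1 hx.2) (beta_ii u hu)]
  have h1 : (2 * u - u) / u = 1 := by
    field_simp
    ring
  have h2 : (2 * 0 - u) / u = -1 := by
    field_simp
    ring
  simp only [h1, h2]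
  rw [Real.arcsin_one, Real.arcsin_neg_one]
  ring

lemma ind_int (u a : ℝ) (h0 : 0 ≤ a) (h1 : a ≤ u) :
    ∫ v in (0 : ℝ)..u, (Set.Ici a).indicator (fun v : ℝ => (u - v) ^ (-(1 / 2) : ℝ)) v =
      2 * √(u - a) := by
  rw [intervalIntegral.integral_of_le (h0.trans h1), setIntegral_indicator measurableSet_Ici,
    ← int_g u a, intervalIntegral.integral_of_le h1]
  apply setIntegral_congr_set
  have h2 : (Set.Ioc 0 u ∩ Set.Ici a : Set ℝ) =ᵐ[volume] (Set.Ioc 0 u ∩ Set.Ioi a : Set ℝ) :=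
    (ae_eq_refl _).inter Ioi_ae_eq_Ici.symm
  refine h2.trans (Filter.EventuallyEq.of_eq ?_)
  rw [Set.Ioc_inter_Ioi, max_eq_right h0]

lemma ind_ii (u a : ℝ) : IntervalIntegrable
    (fun v => (Set.Ici a).indicator (fun v : ℝ => (u - v) ^ (-(1 / 2) : ℝ)) v) volume 0 u := by
  rw [intervalIntegrable_iff]
  exact (intervalIntegrable_iff.1 (ii_g u 0 u)).indicator measurableSet_Ici

lemma F_eq (u : ℝ) (v : ℝ) (hv : v ≤ u) : FF v * (u - v) ^ (-(1 / 2) : ℝ) =
    ∑ m ∈ Icc 1 ⌊Real.exp u⌋₊, fc m / m *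
      (Set.Ici (Real.log m)).indicator (fun v : ℝ => (u - v) ^ (-(1 / 2) : ℝ)) v := by
  have h1 : Icc 1 ⌊Real.exp v⌋₊ = (Icc 1 ⌊Real.exp u⌋₊).filter
      (fun m : ℕ => Real.log m ≤ v) := by
    ext m
    rw [mem_filter, mem_Icc, mem_Icc, Nat.le_floor_iff (Real.exp_pos _).le,
      Nat.le_floor_iff (Real.exp_pos _).le]
    constructor
    · rintro ⟨h1, h2⟩
      have hm : (0 : ℝ) < m := by exact_mod_cast h1
      exact ⟨⟨h1, h2.trans (Real.exp_le_exp.2 hv)⟩, (Real.log_le_iff_le_exp hm).2 h2⟩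
    · rintro ⟨⟨h1, h2⟩, h3⟩
      have hm : (0 : ℝ) < m := by exact_mod_cast h1
      exact ⟨h1, (Real.log_le_iff_le_exp hm).1 h3⟩
  unfold FF
  rw [h1, sum_filter, sum_mul]
  refine sum_congr rfl fun m _ => ?_
  by_cases h : Real.log m ≤ v
  · rw [if_pos h, Set.indicator_of_mem (by exact h)]
  · rw [if_neg h, Set.indicator_of_notMem (by exact h), zero_mul, mul_zero]

lemma FG_ii (u : ℝ) (hu : 0 ≤ u) :
    IntervalIntegrable (fun v => FF v * (u - v) ^ (-(1 / 2) : ℝ)) volume 0 u := by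
  have h : IntervalIntegrable (fun v => ∑ m ∈ Icc 1 ⌊Real.exp u⌋₊, fc m / m *
      (Set.Ici (Real.log m)).indicator (fun v : ℝ => (u - v) ^ (-(1 / 2) : ℝ)) v) volume 0 u := by
    have := IntervalIntegrable.sum (Icc 1 ⌊Real.exp u⌋₊) (f := fun m v => fc m / m *
      (Set.Ici (Real.log m)).indicator (fun v : ℝ => (u - v) ^ (-(1 / 2) : ℝ)) v) (a := 0) (b := u)
      (μ := volume) fun m _ => (ind_ii u (Real.log m)).const_mul (fc m / m)
    refine this.congr ?_
    intro v _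
    simp only [Finset.sum_apply]
  refine h.congr ?_
  intro v hv
  rw [Set.uIoc_of_le hu] at hv
  exact (F_eq u v hv.2).symm

/-- the integral formula -/
lemma B_eq (u : ℝ) (hu : 0 ≤ u) :
    BB 1 u = 1 / 2 * ∫ v in (0 : ℝ)..u, FF v * (u - v) ^ (-(1 / 2) : ℝ) := by
  have h1 : ∫ v in (0 : ℝ)..u, FF v * (u - v) ^ (-(1 / 2) : ℝ) =
      ∫ v in (0 : ℝ)..u, ∑ m ∈ Icc 1 ⌊Real.exp u⌋₊, fc m / m *
        (Set.Ici (Real.log m)).indicator (fun v : ℝ => (u - v) ^ (-(1 / 2) : ℝ)) v := by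
    apply intervalIntegral.integral_congr
    intro v hv
    rw [Set.uIcc_of_le hu] at hv
    exact F_eq u v hv.2
  rw [h1, intervalIntegral.integral_finsetSum (s := Icc 1 ⌊Real.exp u⌋₊)
    (f := fun (m : ℕ) (v : ℝ) => fc m / m *
      (Set.Ici (Real.log m)).indicator (fun v : ℝ => (u - v) ^ (-(1 / 2) : ℝ)) v)
    (fun m _ => (ind_ii u (Real.log m)).const_mul (fc m / m)), mul_sum]
  unfold BB
  refine sum_congr rfl fun m hm => ?_
  have hm1 := mem_Icc.1 hm
  have hm0 : (0 : ℝ) < m := by exact_mod_cast hm1.1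
  have h2 : Real.log m ≤ u := by
    rw [Real.log_le_iff_le_exp hm0]
    exact (Nat.le_floor_iff (Real.exp_pos _).le).1 hm1.2
  rw [intervalIntegral.integral_const_mul, ind_int u _ (Real.log_natCast_nonneg m) h2, one_mul]
  ring

theorem s_bl (hF : S_F) : S_BL := by
  obtain ⟨C, hC, hF⟩ := hF
  set K : ℝ := ∑ m ∈ Icc 1 3, |fc m| / m with hK
  have hK0 : 0 ≤ K := sum_nonneg fun m _ => by positivity
  have hFK : ∀ v : ℝ, v ≤ 1 → |FF v| ≤ K := by
    intro v hv
    unfold FF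
    refine (abs_sum_le_sum_abs _ _).trans ?_
    calc ∑ m ∈ Icc 1 ⌊Real.exp v⌋₊, |fc m / m| ≤ ∑ m ∈ Icc 1 3, |fc m / m| := by
          apply sum_le_sum_of_subset_of_nonneg
          · apply Icc_subset_Icc le_rfl
            have h1 : Real.exp v ≤ 3 := (Real.exp_le_exp.2 hv).trans (by
              have := Real.exp_one_lt_d9
              linarith)
            calc ⌊Real.exp v⌋₊ ≤ ⌊(3 : ℝ)⌋₊ := Nat.floor_le_floor h1
              _ = 3 := by norm_num
          · intro m _ _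
            exact abs_nonneg _
      _ = K := by
          rw [hK]
          refine sum_congr rfl fun m _ => ?_
          rw [abs_div, Nat.abs_cast]
  -- the pointwise bound
  set C₁ : ℝ := K + 1 + C with hC₁
  have hpt : ∀ v : ℝ, 0 < v → |FF v - 1 / √(Real.pi * v)| ≤ C₁ * v ^ (-(3 / 4) : ℝ) := by
    intro v hv
    rcases le_total v 1 with h | h
    · have h1 : 1 / √(Real.pi * v) ≤ v ^ (-(3 / 4) : ℝ) := by
        have h2 : 1 / √(Real.pi * v) ≤ 1 / √v := by
          apply one_div_le_one_div_of_le (by positivity)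
          apply Real.sqrt_le_sqrt
          have := Real.pi_gt_three
          nlinarith
        refine h2.trans ?_
        rw [Real.sqrt_eq_rpow, one_div, ← Real.rpow_neg hv.le]
        exact Real.rpow_le_rpow_of_exponent_ge hv h (by norm_num)
      have h2 : 1 ≤ v ^ (-(3 / 4) : ℝ) := Real.one_le_rpow_of_pos_of_le_one_of_nonpos hv h (by norm_num)
      have h3 := hFK v h
      have h4 : 0 ≤ 1 / √(Real.pi * v) := by positivity
      calc |FF v - 1 / √(Real.pi * v)| ≤ |FF v| + |1 / √(Real.pi * v)| := abs_sub _ _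
        _ ≤ K + v ^ (-(3 / 4) : ℝ) := by
          rw [abs_of_nonneg h4]
          linarith
        _ ≤ _ := by
          rw [hC₁]
          nlinarith
    · refine (hF v h).trans ?_
      have h1 : v ^ (-(3 / 2) : ℝ) ≤ v ^ (-(3 / 4) : ℝ) :=
        Real.rpow_le_rpow_of_exponent_le h (by norm_num)
      have h2 : 0 ≤ v ^ (-(3 / 4) : ℝ) := by positivity
      rw [hC₁]
      nlinarith
  -- the error
  have herr : ∀ u : ℝ, 0 < u → |BB 1 u - √Real.pi / 2| ≤
      1 / 2 * (C₁ * ((u / 2) ^ (-(1 / 2) : ℝ) * (4 * u ^ (1 / 4 : ℝ)) +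
        (u / 2) ^ (-(3 / 4) : ℝ) * (2 * √u))) := by
    intro u hu
    have e1 : √Real.pi / 2 = 1 / 2 * ∫ v in (0 : ℝ)..u,
        1 / √Real.pi * (v ^ (-(1 / 2) : ℝ) * (u - v) ^ (-(1 / 2) : ℝ)) := by
      rw [intervalIntegral.integral_const_mul, beta_int u hu]
      have h1 : 1 / √Real.pi * Real.pi = √Real.pi := by
        rw [one_div, inv_mul_eq_div, div_eq_iff (by positivity)]
        exact (Real.mul_self_sqrt Real.pi_pos.le).symm
      rw [h1]
      ring
    have hii2 : IntervalIntegrable (fun v : ℝ =>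
        1 / √Real.pi * (v ^ (-(1 / 2) : ℝ) * (u - v) ^ (-(1 / 2) : ℝ))) volume 0 u :=
      (beta_ii u hu).const_mul _
    rw [B_eq u hu.le, e1, ← mul_sub, abs_mul, abs_of_pos (show (0 : ℝ) < 1 / 2 by norm_num),
      ← intervalIntegral.integral_sub (FG_ii u hu.le) hii2]
    apply mul_le_mul_of_nonneg_left _ (by norm_num)
    have hb : IntervalIntegrable (fun v : ℝ => C₁ * ((u / 2) ^ (-(1 / 2) : ℝ) * v ^ (-(3 / 4) : ℝ) +
        (u / 2) ^ (-(3 / 4) : ℝ) * (u - v) ^ (-(1 / 2) : ℝ))) volume 0 u :=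
      (((ii_p _ _ _ (by norm_num)).const_mul _).add ((ii_g u 0 u).const_mul _)).const_mul _
    have hle : |∫ v in (0 : ℝ)..u, (FF v * (u - v) ^ (-(1 / 2) : ℝ) -
        1 / √Real.pi * (v ^ (-(1 / 2) : ℝ) * (u - v) ^ (-(1 / 2) : ℝ)))| ≤
        ∫ v in (0 : ℝ)..u, C₁ * ((u / 2) ^ (-(1 / 2) : ℝ) * v ^ (-(3 / 4) : ℝ) +
        (u / 2) ^ (-(3 / 4) : ℝ) * (u - v) ^ (-(1 / 2) : ℝ)) := by
      rw [← Real.norm_eq_abs]
      refine intervalIntegral.norm_integral_le_of_norm_le hu.le ?_ hb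
      have hne : ∀ᵐ v : ℝ, v ≠ u := by
        rw [ae_iff]
        simp
      filter_upwards [hne] with v hvu hv
      have hv0 : 0 < v := hv.1
      have hvu' : v < u := lt_of_le_of_ne hv.2 hvu
      have huv : 0 < u - v := by linarith
      have e2 : FF v * (u - v) ^ (-(1 / 2) : ℝ) -
          1 / √Real.pi * (v ^ (-(1 / 2) : ℝ) * (u - v) ^ (-(1 / 2) : ℝ)) =
          (FF v - 1 / √(Real.pi * v)) * (u - v) ^ (-(1 / 2) : ℝ) := by
        rw [Real.sqrt_mul Real.pi_pos.le, Real.sqrt_eq_rpow v, Real.rpow_neg hv0.le]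
        field_simp
      rw [e2, Real.norm_eq_abs, abs_mul, abs_of_pos (show 0 < (u - v) ^ (-(1 / 2) : ℝ) by
        positivity)]
      have h1 := hpt v hv0
      have hC1 : 0 ≤ C₁ := by rw [hC₁]; positivity
      have hg0 : 0 < (u - v) ^ (-(1 / 2) : ℝ) := by positivity
      have hp0 : 0 < v ^ (-(3 / 4) : ℝ) := by positivity
      refine (mul_le_mul_of_nonneg_right h1 hg0.le).trans ?_
      rw [mul_assoc]
      apply mul_le_mul_of_nonneg_left _ hC1
      have hA0 : 0 < (u / 2) ^ (-(1 / 2) : ℝ) := by positivity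
      have hB0 : 0 < (u / 2) ^ (-(3 / 4) : ℝ) := by positivity
      rcases le_total v (u / 2) with h | h
      · have h2 : (u - v) ^ (-(1 / 2) : ℝ) ≤ (u / 2) ^ (-(1 / 2) : ℝ) :=
          Real.rpow_le_rpow_of_nonpos (by positivity) (by linarith) (by norm_num)
        nlinarith [mul_pos hB0 hg0]
      · have h2 : v ^ (-(3 / 4) : ℝ) ≤ (u / 2) ^ (-(3 / 4) : ℝ) :=
          Real.rpow_le_rpow_of_nonpos (by positivity) h (by norm_num)
        nlinarith [mul_pos hA0 hp0]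
    refine hle.trans (le_of_eq ?_)
    rw [intervalIntegral.integral_const_mul, intervalIntegral.integral_add
      ((ii_p _ _ _ (by norm_num)).const_mul _) ((ii_g u 0 u).const_mul _),
      intervalIntegral.integral_const_mul, intervalIntegral.integral_const_mul, int_g, sub_zero,
      integral_rpow (Or.inl (by norm_num))]
    rw [Real.zero_rpow (by norm_num)]
    norm_num
    left
    left
    ring
  -- the limit
  have hlim : Tendsto (fun u : ℝ => 1 / 2 * (C₁ * ((u / 2) ^ (-(1 / 2) : ℝ) * (4 * u ^ (1 / 4 : ℝ)) +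
        (u / 2) ^ (-(3 / 4) : ℝ) * (2 * √u)))) atTop (𝓝 0) := by
    have h1 : Tendsto (fun u : ℝ => u ^ (-(1 / 4) : ℝ)) atTop (𝓝 0) :=
      tendsto_rpow_neg_atTop (by norm_num)
    have h2 := h1.const_mul (1 / 2 * (C₁ * ((1 / 2 : ℝ) ^ (-(1 / 2) : ℝ) * 4 +
      (1 / 2 : ℝ) ^ (-(3 / 4) : ℝ) * 2)))
    rw [mul_zero] at h2
    refine h2.congr' ?_
    filter_upwards [eventually_gt_atTop 0] with u hu
    have e1 : (u / 2) ^ (-(1 / 2) : ℝ) = (1 / 2 : ℝ) ^ (-(1 / 2) : ℝ) * u ^ (-(1 / 2) : ℝ) := by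
      rw [← Real.mul_rpow (by norm_num) hu.le]
      congr 1
      ring
    have e2 : (u / 2) ^ (-(3 / 4) : ℝ) = (1 / 2 : ℝ) ^ (-(3 / 4) : ℝ) * u ^ (-(3 / 4) : ℝ) := by
      rw [← Real.mul_rpow (by norm_num) hu.le]
      congr 1
      ring
    have e3 : u ^ (-(1 / 4) : ℝ) = u ^ (-(1 / 2) : ℝ) * u ^ (1 / 4 : ℝ) := by
      rw [← Real.rpow_add hu]
      norm_num
    have e4 : u ^ (-(1 / 4) : ℝ) = u ^ (-(3 / 4) : ℝ) * √u := by
      rw [Real.sqrt_eq_rpow, ← Real.rpow_add hu]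
      norm_num
    rw [e1, e2]
    have e5 : (1 / 2 * (C₁ * ((1 / 2 : ℝ) ^ (-(1 / 2) : ℝ) * 4 +
        (1 / 2 : ℝ) ^ (-(3 / 4) : ℝ) * 2))) * u ^ (-(1 / 4) : ℝ) =
        1 / 2 * (C₁ * ((1 / 2 : ℝ) ^ (-(1 / 2) : ℝ) * 4 * u ^ (-(1 / 4) : ℝ) +
          (1 / 2 : ℝ) ^ (-(3 / 4) : ℝ) * 2 * u ^ (-(1 / 4) : ℝ))) := by ring
    rw [e5]
    nth_rewrite 1 [e3]
    rw [e4]
    ring
  unfold S_BL
  rw [tendsto_iff_norm_sub_tendsto_zero]
  refine squeeze_zero' (Eventually.of_forall fun _ => norm_nonneg _) ?_ hlim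
  filter_upwards [eventually_gt_atTop 0] with u hu
  rw [Real.norm_eq_abs]
  exact herr u hu

end Pool.Agent.L7h97.DP
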