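import Pool.Agent.L7h11.DP.Stm
import Pool.Agent.H442R2.EHI.PntErr

/-!
# Project DP (helper11): Mertens' sum with a good error term
-/

set_option autoImplicit false

namespace Pool.Agent.L7h97.DP

open Finset Pool.Agent.L7h11.DP

lemma psi_succ (n : ℕ) : Chebyshev.psi ((n + 1 : ℕ) : ℝ) = Chebyshev.psi (n : ℝ) +
    ArithmeticFunction.vonMangoldt (n + 1) := by
  unfold Chebyshev.psi
  rw [Nat.floor_natCast, Nat.floor_natCast, Finset.sum_Ioc_succ_top (Nat.zero_le n)]

/-- squeezing -/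
lemma squeeze {B φ : ℕ → ℝ} (hφ : ∀ n, 0 ≤ φ n)
    (h : ∀ n, |B (n + 1) - B n| ≤ φ n - φ (n + 1)) : ∃ L : ℝ, ∀ n, |B n - L| ≤ φ n := by
  have h1 : Antitone fun n => B n + φ n := antitone_nat_of_succ_le fun n => by
    have := (abs_le.1 (h n)).2
    linarith
  have h2 : Monotone fun n => B n - φ n := monotone_nat_of_le_succ fun n => by
    have := (abs_le.1 (h n)).1
    linarith
  have h3 : ∀ m n, B m - φ m ≤ B n + φ n := by
    intro m n
    have a1 := h2 (le_max_left m n)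
    have a2 := h1 (le_max_right m n)
    have a3 := hφ (max m n)
    simp only at a1 a2
    linarith
  have hb : BddAbove (Set.range fun m => B m - φ m) := ⟨B 0 + φ 0, by
    rintro _ ⟨m, rfl⟩
    exact h3 m 0⟩
  refine ⟨⨆ m, (B m - φ m), fun n => ?_⟩
  rw [abs_le]
  constructor
  · have := ciSup_le (f := fun m => B m - φ m) fun m => h3 m n
    linarith
  · have := le_ciSup hb n
    linarith

/-- powers of the logarithm -/
lemma logK : ∃ K : ℝ, 0 < K ∧ ∀ n : ℕ, 1 ≤ n → (1 + Real.log n) ^ 3 ≤ K * n := by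
  obtain ⟨C₂, hC₂, h2⟩ := Pool.Agent.H442R2.EHI.PntErrAux.log_pow_le 3
  refine ⟨8 * (1 + C₂), by positivity, fun n hn => ?_⟩
  have hn0 : (0 : ℝ) < n := by exact_mod_cast hn
  have hn1 : (1 : ℝ) ≤ n := by exact_mod_cast hn
  have hl : 0 ≤ Real.log n := Real.log_nonneg hn1
  have h3 := h2 n hn
  have h4 : √(n : ℝ) ≤ n := by
    rw [Real.sqrt_le_left hn0.le]
    nlinarith
  have h5 : Real.log n ^ 3 ≤ C₂ * n := h3.trans (mul_le_mul_of_nonneg_left h4 hC₂.le)
  rcases le_total (Real.log n) 1 with h | h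
  · have h6 : (1 + Real.log n) ^ 3 ≤ 2 ^ 3 := pow_le_pow_left₀ (by linarith) (by linarith) 3
    nlinarith
  · have h6 : (1 + Real.log n) ^ 3 ≤ (2 * Real.log n) ^ 3 :=
      pow_le_pow_left₀ (by linarith) (by linarith) 3
    rw [mul_pow] at h6
    nlinarith

/-- the prime number theorem for all `n ≥ 1` -/
lemma psiE : ∃ C : ℝ, 0 < C ∧ ∀ n : ℕ, 1 ≤ n →
    |Chebyshev.psi (n : ℝ) - n| ≤ C * (n / (1 + Real.log n) ^ 3) := by
  obtain ⟨C, hC, N₁, h⟩ := Pool.Agent.H442R2.EHI.PntErrAux.largeU 3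
  set C' : ℝ := ∑ n ∈ range (max N₁ 3), |Chebyshev.psi (n : ℝ) - n| * (1 + Real.log n) ^ 3 with hC'
  have hC'0 : 0 ≤ C' := by
    rw [hC']
    refine sum_nonneg fun n _ => mul_nonneg (abs_nonneg _) (pow_nonneg ?_ _)
    have := Real.log_natCast_nonneg n
    linarith
  obtain ⟨K, hK, hKn⟩ := logK
  refine ⟨8 * C + 2 * K + C', by positivity, fun n hn => ?_⟩
  have hn0 : (0 : ℝ) < n := by exact_mod_cast hn
  have hn1 : (1 : ℝ) ≤ n := by exact_mod_cast hn
  have hl : 0 ≤ Real.log n := Real.log_nonneg hn1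
  have hq : 0 < (n : ℝ) / (1 + Real.log n) ^ 3 := by positivity
  by_cases hlt : n < max N₁ 3
  · have h1 : |Chebyshev.psi (n : ℝ) - n| * (1 + Real.log n) ^ 3 ≤ C' :=
      single_le_sum (f := fun n : ℕ => |Chebyshev.psi (n : ℝ) - n| * (1 + Real.log n) ^ 3)
        (fun n _ => mul_nonneg (abs_nonneg _) (pow_nonneg (by
          have := Real.log_natCast_nonneg n
          linarith) _)) (mem_range.2 hlt)
    have h2 : |Chebyshev.psi (n : ℝ) - n| ≤ C' * (n / (1 + Real.log n) ^ 3) := by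
      rw [← mul_div_assoc, le_div_iff₀ (by positivity)]
      calc |Chebyshev.psi (n : ℝ) - n| * (1 + Real.log n) ^ 3 ≤ C' := h1
        _ = C' * 1 := (mul_one _).symm
        _ ≤ C' * n := mul_le_mul_of_nonneg_left hn1 hC'0
    have h9 : 0 ≤ (8 * C + 2 * K) * (n / (1 + Real.log n) ^ 3) := by positivity
    linarith [add_mul (8 * C + 2 * K) C' ((n : ℝ) / (1 + Real.log n) ^ 3)]
  · have h3 : 3 ≤ n := by
      have := le_max_right N₁ 3
      omega
    have h4 : N₁ ≤ n := by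
      have := le_max_left N₁ 3
      omega
    have h5 : 1 ≤ Real.log n := by
      rw [Real.le_log_iff_exp_le hn0]
      have h6 := Real.exp_one_lt_d9
      have h7 : (3 : ℝ) ≤ n := by exact_mod_cast h3
      linarith
    refine (h n h4).trans ?_
    have h8 : (n : ℝ) / Real.log n ^ 3 ≤ 8 * (n / (1 + Real.log n) ^ 3) := by
      rw [← mul_div_assoc, div_le_div_iff₀ (by positivity) (by positivity)]
      have h9 : (1 + Real.log n) ^ 3 ≤ (2 * Real.log n) ^ 3 :=
        pow_le_pow_left₀ (by linarith) (by linarith) 3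
      calc (n : ℝ) * (1 + Real.log n) ^ 3 ≤ n * (2 * Real.log n) ^ 3 :=
            mul_le_mul_of_nonneg_left h9 hn0.le
        _ = 8 * n * Real.log n ^ 3 := by ring
    have h10 : (2 : ℝ) ≤ 2 * K * (n / (1 + Real.log n) ^ 3) := by
      rw [← mul_div_assoc, le_div_iff₀ (by positivity)]
      have := hKn n hn
      linarith
    have h11 : C * (n / Real.log n ^ 3) ≤ C * (8 * (n / (1 + Real.log n) ^ 3)) :=
      mul_le_mul_of_nonneg_left h8 hC.le
    have h12 : 0 ≤ C' * (n / (1 + Real.log n) ^ 3) := by positivity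
    linarith [add_mul (8 * C + 2 * K) C' ((n : ℝ) / (1 + Real.log n) ^ 3),
      add_mul (8 * C) (2 * K) ((n : ℝ) / (1 + Real.log n) ^ 3)]

/-- the step of the function `1 / (1 + log n) ^ 2` -/
lemma phi_step (n : ℕ) (hn : 1 ≤ n) : 1 / (((n : ℝ) + 1) * (1 + Real.log n) ^ 3) ≤
    2 * (1 / (1 + Real.log n) ^ 2 - 1 / (1 + Real.log ((n : ℝ) + 1)) ^ 2) := by
  have hn0 : (0 : ℝ) < n := by exact_mod_cast hn
  have hn1 : (1 : ℝ) ≤ n := by exact_mod_cast hn
  set a := 1 + Real.log n with ha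
  set b := 1 + Real.log ((n : ℝ) + 1) with hb
  have ha1 : 1 ≤ a := by
    have := Real.log_nonneg hn1
    rw [ha]; linarith
  have hba : 1 / ((n : ℝ) + 1) ≤ b - a := by
    have h1 : b - a = -Real.log (n / (n + 1)) := by
      rw [ha, hb, Real.log_div hn0.ne' (by positivity)]
      ring
    rw [h1]
    have h2 := Real.log_le_sub_one_of_pos (x := (n : ℝ) / (n + 1)) (by positivity)
    have h3 : (n : ℝ) / (n + 1) - 1 = -(1 / ((n : ℝ) + 1)) := by
      field_simp
      ring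
    linarith
  have hb2 : b ≤ 2 * a := by
    have h1 : Real.log ((n : ℝ) + 1) ≤ Real.log (2 * n) := Real.log_le_log (by positivity)
      (by linarith)
    rw [Real.log_mul (by norm_num) hn0.ne'] at h1
    have h2 := Real.log_two_lt_d9
    have h3 := Real.log_nonneg hn1
    rw [ha, hb]
    linarith
  have hn3 : 0 < 1 / ((n : ℝ) + 1) := by positivity
  have hab : a < b := by linarith
  have ha0 : 0 < a := by linarith
  have hb0 : 0 < b := by linarith
  have h1 : 1 / a ^ 2 - 1 / b ^ 2 = (b - a) * (a + b) / (a ^ 2 * b ^ 2) := by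
    field_simp
    ring
  rw [h1]
  have h2 : (b - a) * (1 / (2 * a ^ 3)) ≤ (b - a) * (a + b) / (a ^ 2 * b ^ 2) := by
    rw [mul_div_assoc]
    apply mul_le_mul_of_nonneg_left _ (by linarith)
    rw [div_le_div_iff₀ (by positivity) (by positivity)]
    have h3 : b ≤ 2 * a := hb2
    have h4 : a ^ 2 * b ^ 2 ≤ a ^ 2 * (b * (2 * a)) := by
      apply mul_le_mul_of_nonneg_left _ (by positivity)
      nlinarith
    nlinarith [mul_pos ha0 hb0, pow_pos ha0 3, pow_pos ha0 4]
  have h3 : 1 / (((n : ℝ) + 1) * a ^ 3) = 2 * (1 / ((n : ℝ) + 1) * (1 / (2 * a ^ 3))) := by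
    field_simp
  rw [h3]
  have h4 : 1 / ((n : ℝ) + 1) * (1 / (2 * a ^ 3)) ≤ (b - a) * (1 / (2 * a ^ 3)) :=
    mul_le_mul_of_nonneg_right hba (by positivity)
  linarith

theorem s_pnt : S_PNT := by
  obtain ⟨C, hC, hE⟩ := psiE
  -- `1 / n ≤ K / (1 + log n) ^ 3`
  obtain ⟨K, hK, hn⟩ := logK
  set A : ℕ → ℝ := fun N => ∑ n ∈ Icc 1 N, ArithmeticFunction.vonMangoldt n / n with hA
  set B : ℕ → ℝ := fun N => A (N + 1) - Chebyshev.psi ((N + 1 : ℕ) : ℝ) / ((N + 1 : ℕ) : ℝ) + 1 -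
    Real.log ((N + 1 : ℕ) : ℝ) with hB
  set φ : ℕ → ℝ := fun N => 2 * (K + C) * (1 / (1 + Real.log ((N + 1 : ℕ) : ℝ)) ^ 2) with hφ
  have hφ0 : ∀ n, 0 ≤ φ n := fun n => by
    have := Real.log_natCast_nonneg (n + 1)
    simp only [hφ]
    positivity
  obtain ⟨L, hL⟩ := squeeze (B := B) (φ := φ) hφ0 (by
    intro m
    set n := m + 1 with hnm
    have hn1 : 1 ≤ n := by omega
    have hn0 : (0 : ℝ) < n := by exact_mod_cast hn1
    have hn1R : (1 : ℝ) ≤ n := by exact_mod_cast hn1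
    have hl : 0 ≤ Real.log n := Real.log_nonneg hn1R
    have e1 : B (m + 1) - B m = 1 / ((n : ℝ) + 1) - (Real.log ((n : ℝ) + 1) - Real.log n) +
        (Chebyshev.psi (n : ℝ) - n) / (n * (n + 1)) := by
      simp only [hB, hA]
      rw [← hnm, psi_succ, Finset.sum_Icc_succ_top (by omega)]
      push_cast
      field_simp
      ring
    have e2 : |1 / ((n : ℝ) + 1) - (Real.log ((n : ℝ) + 1) - Real.log n)| ≤
        1 / (n * ((n : ℝ) + 1)) := by
      have h1 : 1 / ((n : ℝ) + 1) ≤ Real.log ((n : ℝ) + 1) - Real.log n := by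
        have h2 := Real.log_le_sub_one_of_pos (x := (n : ℝ) / (n + 1)) (by positivity)
        rw [Real.log_div hn0.ne' (by positivity)] at h2
        have h3 : (n : ℝ) / (n + 1) - 1 = -(1 / ((n : ℝ) + 1)) := by
          field_simp
          ring
        linarith
      have h2 : Real.log ((n : ℝ) + 1) - Real.log n ≤ 1 / n := by
        have h2 := Real.log_le_sub_one_of_pos (x := ((n : ℝ) + 1) / n) (by positivity)
        rw [Real.log_div (by positivity) hn0.ne'] at h2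
        have h3 : ((n : ℝ) + 1) / n - 1 = 1 / n := by
          field_simp
          ring
        linarith
      have h3 : 1 / (n : ℝ) - 1 / ((n : ℝ) + 1) = 1 / (n * ((n : ℝ) + 1)) := by
        field_simp
        ring
      rw [abs_le]
      constructor <;> linarith [show (0 : ℝ) < 1 / (n * ((n : ℝ) + 1)) by positivity]
    have e3 : 1 / (n * ((n : ℝ) + 1)) ≤ K * (1 / (((n : ℝ) + 1) * (1 + Real.log n) ^ 3)) := by
      rw [mul_one_div, div_le_div_iff₀ (by positivity) (by positivity)]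
      have := hn n hn1
      nlinarith
    have e4 : |(Chebyshev.psi (n : ℝ) - n) / (n * (n + 1))| ≤
        C * (1 / (((n : ℝ) + 1) * (1 + Real.log n) ^ 3)) := by
      rw [abs_div, abs_of_pos (show (0 : ℝ) < n * (n + 1) by positivity),
        div_le_iff₀ (by positivity)]
      refine (hE n hn1).trans (le_of_eq ?_)
      field_simp
    have e5 := phi_step n hn1
    rw [e1]
    refine (abs_add_le _ _).trans ?_
    have e6 : φ m - φ (m + 1) = (K + C) * (2 * (1 / (1 + Real.log n) ^ 2 -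
        1 / (1 + Real.log ((n : ℝ) + 1)) ^ 2)) := by
      simp only [hφ, ← hnm]
      push_cast
      ring
    rw [e6]
    calc _ ≤ K * (1 / (((n : ℝ) + 1) * (1 + Real.log n) ^ 3)) +
          C * (1 / (((n : ℝ) + 1) * (1 + Real.log n) ^ 3)) := add_le_add (e2.trans e3) e4
      _ = (K + C) * (1 / (((n : ℝ) + 1) * (1 + Real.log n) ^ 3)) := by ring
      _ ≤ _ := mul_le_mul_of_nonneg_left e5 (by positivity))
  refine ⟨-L, 2 * (K + C) + C, fun N hN => ?_⟩
  obtain ⟨m, rfl⟩ : ∃ m, N = m + 1 := ⟨N - 1, by omega⟩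
  have h1 := hL m
  have h2 := hE (m + 1) hN
  have hn0 : (0 : ℝ) < ((m + 1 : ℕ) : ℝ) := by positivity
  have hl : 0 ≤ Real.log ((m + 1 : ℕ) : ℝ) := Real.log_natCast_nonneg _
  have h3 : ∑ n ∈ Icc 1 (m + 1), ArithmeticFunction.vonMangoldt n / n -
      (Real.log ((m + 1 : ℕ) : ℝ) - -L) = (B m - L) +
        (Chebyshev.psi ((m + 1 : ℕ) : ℝ) - ((m + 1 : ℕ) : ℝ)) / ((m + 1 : ℕ) : ℝ) := by
    simp only [hB, hA]
    field_simp
    ring
  rw [h3]
  refine (abs_add_le _ _).trans ?_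
  have h4 : |(Chebyshev.psi ((m + 1 : ℕ) : ℝ) - ((m + 1 : ℕ) : ℝ)) / ((m + 1 : ℕ) : ℝ)| ≤
      C * (1 / (1 + Real.log ((m + 1 : ℕ) : ℝ)) ^ 2) := by
    rw [abs_div, abs_of_pos hn0, div_le_iff₀ hn0]
    refine h2.trans ?_
    rw [mul_assoc]
    apply mul_le_mul_of_nonneg_left _ hC.le
    rw [one_div, inv_mul_eq_div, div_le_div_iff₀ (by positivity) (by positivity)]
    apply mul_le_mul_of_nonneg_left _ hn0.le
    exact pow_le_pow_right₀ (by linarith) (by norm_num)
  calc _ ≤ 2 * (K + C) * (1 / (1 + Real.log ((m + 1 : ℕ) : ℝ)) ^ 2) +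
        C * (1 / (1 + Real.log ((m + 1 : ℕ) : ℝ)) ^ 2) := add_le_add h1 h4
    _ = _ := by ring

end Pool.Agent.L7h97.DP
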